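import Pool.Agent.K3h26.R5.Stm

/-!
Brick MASS of project R5 (helper27 for helper26): the weights have sum one.
-/

set_option autoImplicit false

open MeasureTheory Filter Topology Set
open scoped ENNReal

namespace Pool.Agent.K3h27.R5

open Pool.Agent.K3h26.R5

lemma len_aux (x : ℝ) : min (1 / 2 : ℝ) (x + 1 / 2) - max (-(1 / 2)) (x - 1 / 2) = 1 - |x| := by
  rcases le_total 0 x with h | h
  · rw [abs_of_nonneg h, min_eq_left (by linarith), max_eq_right (by linarith)]; ring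
  · rw [abs_of_nonpos h, min_eq_right (by linarith), max_eq_left (by linarith)]; ring

/-- the half-open square around `(v 3, v 4)` -/
def Sq (v : Fin 5 → ℝ) : Set (ℝ × ℝ) :=
  Ico (v 3 - 1 / 2) (v 3 + 1 / 2) ×ˢ Ico (v 4 - 1 / 2) (v 4 + 1 / 2)

/-- the unit square -/
def Q : Set (ℝ × ℝ) := Ico (-(1 / 2)) (1 / 2) ×ˢ Ico (-(1 / 2)) (1 / 2)

lemma vol_Q : volume Q = 1 := by
  unfold Q
  rw [Measure.volume_eq_prod, Measure.prod_prod, Real.volume_Ico]
  norm_num

lemma vol_inter {v : Fin 5 → ℝ} (h3 : |v 3| < 1) (_h4 : |v 4| < 1) :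
    volume (Q ∩ Sq v) = ENNReal.ofReal (mu v) := by
  unfold Q Sq
  rw [Set.prod_inter_prod, Set.Ico_inter_Ico, Set.Ico_inter_Ico, Measure.volume_eq_prod,
    Measure.prod_prod, Real.volume_Ico, Real.volume_Ico, ← ENNReal.ofReal_mul]
  · congr 1
    have e1 := len_aux (v 3)
    have e2 := len_aux (v 4)
    unfold mu
    rw [← e1, ← e2]
  · have e1 := len_aux (v 3)
    have : (1 / 2 : ℝ) ⊓ (v 3 + 1 / 2) - (-(1 / 2)) ⊔ (v 3 - 1 / 2) = 1 - |v 3| := e1
    rw [this]; linarith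

theorem t_MASS (hSL : S_SL) : Pool.Agent.K3h26.R5.S_MASS := by
  intro L hL i j k
  obtain ⟨-, hsl2⟩ := hSL L hL
  set W := WW L (2 * i + k) (2 * j + k) k with hW
  have hsep : ∀ v ∈ W, ∀ v' ∈ W, |v 3 - v' 3| < 1 → |v 4 - v' 4| < 1 → v = v' := by
    intro v hv v' hv' h3 h4
    by_contra hne
    have h := hL.1 (v - v') (L.sub_mem hv.1 hv'.1) (sub_ne_zero.2 hne)
    have e0 : (v - v') 0 = 0 := by rw [Pi.sub_apply, hv.2.2.1, hv'.2.2.1, sub_self]
    have e1 : (v - v') 1 = 0 := by rw [Pi.sub_apply, hv.2.2.2.1, hv'.2.2.2.1, sub_self]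
    have e2 : (v - v') 2 = 0 := by rw [Pi.sub_apply, hv.2.2.2.2, hv'.2.2.2.2, sub_self]
    rcases h with h | h | h
    · unfold n1 at h
      rw [e0, e1, e2] at h
      norm_num at h
    · unfold ni at h
      rw [e0, e1, e2] at h
      norm_num at h
    · exact absurd h (not_le.2 (max_lt h3 h4))
  have hlt : ∀ v ∈ W, |v 3| < 1 ∧ |v 4| < 1 := fun v hv => max_lt_iff.1 hv.2.1
  have hfin : W.Finite := by
    refine Set.Finite.of_finite_image
      (f := fun v : Fin 5 → ℝ => (decide (0 ≤ v 3), decide (0 ≤ v 4))) (Set.toFinite _) ?_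
    intro v hv v' hv' he
    have h1 : decide (0 ≤ v 3) = decide (0 ≤ v' 3) := congrArg Prod.fst he
    have h2 : decide (0 ≤ v 4) = decide (0 ≤ v' 4) := congrArg Prod.snd he
    rw [decide_eq_decide] at h1 h2
    obtain ⟨a3, a4⟩ := hlt v hv
    obtain ⟨b3, b4⟩ := hlt v' hv'
    rw [abs_lt] at a3 a4 b3 b4
    refine hsep v hv v' hv' ?_ ?_
    · rw [abs_lt]
      rcases le_or_gt 0 (v 3) with h | h
      · have := h1.1 h; constructor <;> linarith
      · have : v' 3 < 0 := by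
          by_contra hh; push Not at hh; exact absurd (h1.2 hh) (not_le.2 h)
        constructor <;> linarith
    · rw [abs_lt]
      rcases le_or_gt 0 (v 4) with h | h
      · have := h2.1 h; constructor <;> linarith
      · have : v' 4 < 0 := by
          by_contra hh; push Not at hh; exact absurd (h2.2 hh) (not_le.2 h)
        constructor <;> linarith
  refine ⟨hfin, ?_⟩
  rw [finsum_mem_eq_finite_toFinset_sum _ hfin]
  set F := hfin.toFinset with hF
  have hmem : ∀ v, v ∈ F ↔ v ∈ W := fun v => Set.Finite.mem_toFinset hfin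
  have hcov : Q = ⋃ v ∈ F, (Q ∩ Sq v) := by
    apply Set.Subset.antisymm
    · rintro ⟨a, b⟩ hab
      obtain ⟨⟨ha1, ha2⟩, hb1, hb2⟩ := hab
      obtain ⟨v, hvL, v0, v1, v2, c1, c2, c3, c4⟩ := hsl2 i j k a b ha1 ha2 hb1 hb2
      have hvW : v ∈ W := by
        refine ⟨hvL, max_lt ?_ ?_, v0, v1, v2⟩
        · rw [abs_lt]; simp only at ha1 ha2 ⊢; constructor <;> linarith
        · rw [abs_lt]; simp only at hb1 hb2 ⊢; constructor <;> linarith
      rw [Set.mem_iUnion₂]
      refine ⟨v, (hmem v).2 hvW, ⟨⟨ha1, ha2⟩, hb1, hb2⟩, ⟨?_, ?_⟩, ?_, ?_⟩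
      · simp only; linarith
      · simp only; linarith
      · simp only; linarith
      · simp only; linarith
    · intro x hx
      rw [Set.mem_iUnion₂] at hx
      obtain ⟨v, -, hv⟩ := hx
      exact hv.1
  have hdisj : Set.PairwiseDisjoint (F : Set (Fin 5 → ℝ)) (fun v => Q ∩ Sq v) := by
    intro v hv v' hv' hne
    rw [Function.onFun, Set.disjoint_left]
    rintro ⟨a, b⟩ ⟨-, ⟨h1, h2⟩, h3, h4⟩ ⟨-, ⟨g1, g2⟩, g3, g4⟩
    simp only at h1 h2 h3 h4 g1 g2 g3 g4
    refine hne (hsep v ((hmem v).1 hv) v' ((hmem v').1 hv') ?_ ?_)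
    · rw [abs_lt]; constructor <;> linarith
    · rw [abs_lt]; constructor <;> linarith
  have hmeas : ∀ v ∈ F, MeasurableSet (Q ∩ Sq v) := fun v _ =>
    (measurableSet_Ico.prod measurableSet_Ico).inter (measurableSet_Ico.prod measurableSet_Ico)
  have hv1 : volume Q = ∑ v ∈ F, volume (Q ∩ Sq v) := by
    conv_lhs => rw [hcov]
    exact measure_biUnion_finset hdisj hmeas
  have hv2 : ∑ v ∈ F, volume (Q ∩ Sq v) = ∑ v ∈ F, ENNReal.ofReal (mu v) := by
    refine Finset.sum_congr rfl fun v hv => ?_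
    obtain ⟨a, b⟩ := hlt v ((hmem v).1 hv)
    exact vol_inter a b
  have hnn : ∀ v ∈ F, 0 ≤ mu v := by
    intro v hv
    obtain ⟨a, b⟩ := hlt v ((hmem v).1 hv)
    unfold mu
    exact mul_nonneg (by linarith) (by linarith)
  rw [vol_Q, hv2, ← ENNReal.ofReal_sum_of_nonneg hnn] at hv1
  have := congrArg ENNReal.toReal hv1
  rw [ENNReal.toReal_ofReal (Finset.sum_nonneg hnn)] at this
  simpa using this.symm

end Pool.Agent.K3h27.R5
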